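import Mathlib
import Pool.Agent.H721Z.ZS.Frac
import Pool.Agent.H721Z.ZS.Konig

set_option autoImplicit false

namespace Pool.Agent.H721Z.WR

open Finset Pool.Agent.H721Z.ZS

section pm

variable {X : Type} [Fintype X] [DecidableEq X] (F : SimpleGraph X) [DecidableRel F.Adj]

/-- number of edges leaving `S` -/
def bd (S : Finset X) : ℕ := ∑ a, ∑ b, if a ∈ S ∧ b ∉ S ∧ F.Adj a b then 1 else 0

theorem bd_compl (S : Finset X) : bd F Sᶜ = bd F S := by
  unfold bd
  rw [sum_comm]
  refine sum_congr rfl fun a _ => sum_congr rfl fun b _ => ?_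
  simp only [mem_compl, not_not, F.adj_comm b a]
  congr 1
  exact propext ⟨fun h => ⟨h.2.1, h.1, h.2.2⟩, fun h => ⟨h.2.1, h.1, h.2.2⟩⟩

theorem bd_sub (S T : Finset X) : bd F (S ∩ T) + bd F (S ∪ T) ≤ bd F S + bd F T := by
  unfold bd
  simp only [← sum_add_distrib]
  refine sum_le_sum fun a _ => sum_le_sum fun b _ => ?_
  by_cases h1 : a ∈ S <;> by_cases h2 : a ∈ T <;> by_cases h3 : b ∈ S <;> by_cases h4 : b ∈ T <;>
    by_cases h5 : F.Adj a b <;> simp [h1, h2, h3, h4, h5]

theorem bd_pos (S T : Finset X) : bd F (S \ T) + bd F (T \ S) ≤ bd F S + bd F T := by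
  have := bd_sub F S Tᶜ
  rw [bd_compl, ← bd_compl F (S ∪ Tᶜ)] at this
  have e1 : S ∩ Tᶜ = S \ T := by ext; simp
  have e2 : (S ∪ Tᶜ)ᶜ = T \ S := by ext; simp [and_comm]
  rwa [e1, e2] at this

theorem bd_map (φ : Equiv.Perm X) (hφ : ∀ a b, F.Adj (φ a) (φ b) ↔ F.Adj a b) (S : Finset X) :
    bd F (S.map φ.toEmbedding) = bd F S := by
  unfold bd
  rw [← Equiv.sum_comp φ]
  refine sum_congr rfl fun a _ => ?_
  rw [← Equiv.sum_comp φ]
  refine sum_congr rfl fun b _ => ?_
  simp [hφ]

theorem bd_eq (S : Finset X) : bd F S = ∑ a ∈ S, (Sᶜ.filter (fun b => F.Adj a b)).card := by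
  unfold bd
  rw [← sum_subset (subset_univ S)]
  · refine sum_congr rfl fun a ha => ?_
    rw [← card_filter]
    congr 1
    ext b; simp [ha]
  · intro a _ ha
    simp [ha]

theorem bd_odd (e : ℕ) (he : Odd e) (hreg : ∀ v, F.degree v = e)
    (htr : ∀ u v, ∃ φ : Equiv.Perm X, (∀ a b, F.Adj (φ a) (φ b) ↔ F.Adj a b) ∧ φ u = v)
    (S0 : Finset X) (h0 : Odd S0.card) : e ≤ bd F S0 := by
  obtain ⟨S1, h1, hm1⟩ := exists_min_image (univ.filter fun S : Finset X => Odd S.card) (bd F)
    ⟨S0, by simpa using h0⟩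
  obtain ⟨S, hS, hm2⟩ := exists_min_image
    (univ.filter fun S : Finset X => Odd S.card ∧ bd F S = bd F S1) card
    ⟨S1, by simpa using h1⟩
  simp only [mem_filter, mem_univ, true_and] at h1 hm1 hS hm2
  have hm : ∀ T : Finset X, Odd T.card → bd F S ≤ bd F T := fun T hT => hS.2 ▸ hm1 T hT
  refine le_trans ?_ (hm S0 h0)
  have hblock : ∀ φ : Equiv.Perm X, (∀ a b, F.Adj (φ a) (φ b) ↔ F.Adj a b) →
      (S ∩ S.map φ.toEmbedding).Nonempty → S.map φ.toEmbedding = S := by
    intro φ hφ hne
    set T := S.map φ.toEmbedding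
    have c1 : T.card = S.card := card_map _
    have c2 : bd F T = bd F S := bd_map F φ hφ S
    have c3 := card_inter_add_card_union S T
    have c4 := card_sdiff_add_card_inter S T
    have c5 := card_sdiff_add_card_inter T S
    rw [inter_comm T S] at c5
    have c6 := hne.card_pos
    have ho := hS.1
    rcases Nat.even_or_odd (S ∩ T).card with h | h
    · exfalso
      have o1 : Odd (S \ T).card := by
        rw [Nat.odd_iff] at ho ⊢; rw [Nat.even_iff] at h; omega
      have o2 : Odd (T \ S).card := by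
        rw [Nat.odd_iff] at ho ⊢; rw [Nat.even_iff] at h; omega
      have := bd_pos F S T
      have a := hm _ o1
      have b := hm _ o2
      have := hm2 (S \ T) ⟨o1, by omega⟩
      omega
    · have o2 : Odd (S ∪ T).card := by
        rw [Nat.odd_iff] at ho h ⊢; omega
      have := bd_sub F S T
      have a := hm _ h
      have b := hm _ o2
      have c := hm2 (S ∩ T) ⟨h, by omega⟩
      have d : S ∩ T = S := eq_of_subset_of_card_le inter_subset_left c
      exact (eq_of_subset_of_card_le (inter_eq_left.1 d) c1.le).symm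
  obtain ⟨u, hu⟩ : S.Nonempty := card_pos.1 hS.1.pos
  set e' := (S.filter (fun b => F.Adj u b)).card with he'
  have hin : ∀ v ∈ S, (S.filter (fun b => F.Adj v b)).card = e' := by
    intro v hv
    obtain ⟨φ, hφ, rfl⟩ := htr u v
    have hb := hblock φ hφ ⟨φ u, mem_inter.2 ⟨hv, mem_map_of_mem _ hu⟩⟩
    rw [he', ← card_map φ.toEmbedding (s := S.filter (fun b => F.Adj u b))]
    congr 1
    ext b
    obtain ⟨b, rfl⟩ := φ.surjective b
    have : φ b ∈ S ↔ b ∈ S := by
      conv_lhs => rw [← hb]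
      simp
    simp only [mem_filter, mem_map_equiv, Equiv.symm_apply_apply, this, hφ]
  have hsplit : ∀ v, (S.filter (fun b => F.Adj v b)).card +
      (Sᶜ.filter (fun b => F.Adj v b)).card = e := by
    intro v
    rw [← hreg v, ← card_union_of_disjoint (disjoint_filter_filter disjoint_compl_right),
      ← filter_union, union_compl, ← SimpleGraph.card_neighborFinset_eq_degree,
      SimpleGraph.neighborFinset_eq_filter]
  have heven : Even (S.card * e') := by
    let F' : SimpleGraph X :=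
      { Adj := fun a b => a ∈ S ∧ b ∈ S ∧ F.Adj a b
        symm := ⟨fun a b h => ⟨h.2.1, h.1, h.2.2.symm⟩⟩
        loopless := ⟨fun a h => h.2.2.ne rfl⟩ }
    classical
    have h := F'.sum_degrees_eq_twice_card_edges
    have : ∑ v, F'.degree v = S.card * e' := by
      rw [← sum_subset (subset_univ S), sum_congr rfl (g := fun _ => e')]
      · simp
      · intro v hv
        rw [← hin v hv, ← SimpleGraph.card_neighborFinset_eq_degree]
        congr 1
        ext b; simp [F', hv]
      · intro v _ hv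
        rw [← SimpleGraph.card_neighborFinset_eq_degree, card_eq_zero]
        ext b; simp [F', hv]
    rw [← this, h]
    exact even_two_mul _
  have he'e : Even e' := by
    rcases Nat.even_mul.1 heven with h | h
    · exact absurd h (Nat.not_even_iff_odd.2 hS.1)
    · exact h
  have hlt : e' < e := by
    have := hsplit u
    rw [Nat.odd_iff] at he; rw [Nat.even_iff] at he'e
    omega
  have hS1 : e' + 1 ≤ S.card := by
    rw [he', ← card_insert_of_notMem (a := u) (by simp)]
    exact card_le_card (insert_subset hu (filter_subset _ _))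
  rw [bd_eq, sum_congr rfl (g := fun _ => e - e')
    (fun v hv => by have := hsplit v; have := hin v hv; omega)]
  simp only [sum_const, smul_eq_mul]
  obtain ⟨k, rfl⟩ : ∃ k, e = e' + 1 + k := ⟨e - e' - 1, by omega⟩
  have : e' + 1 + k - e' = k + 1 := by omega
  rw [this]
  nlinarith

theorem pm_of_trans (e : ℕ) (he : Odd e) (hreg : ∀ v, F.degree v = e)
    (htr : ∀ u v, ∃ φ : Equiv.Perm X, (∀ a b, F.Adj (φ a) (φ b) ↔ F.Adj a b) ∧ φ u = v) :
    ∃ p : X → X, ∀ a, F.Adj a (p a) ∧ p (p a) = a := by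
  obtain ⟨M, hM⟩ := frac_tutte F (by
      have h := F.sum_degrees_eq_twice_card_edges
      simp only [hreg, sum_const, card_univ, smul_eq_mul] at h
      have : Even (Fintype.card X * e) := by rw [h]; exact even_two_mul _
      rcases Nat.even_mul.1 this with h | h
      · exact h
      · exact absurd h (Nat.not_even_iff_odd.2 he)) e 0 (fun a b => if F.Adj a b then 1 else 0)
    (fun a b h => by by_contra c; simp [c] at h)
    (fun x => by
      rw [← card_filter, ← hreg x, ← SimpleGraph.card_neighborFinset_eq_degree]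
      refine le_of_eq ?_
      congr 1
      ext b; simp [F.adj_comm])
    (∅ : Finset X) id id (by simp)
    (by have := he.pos; omega)
    (fun S hS => by
      have := bd_odd F e he hreg htr S hS
      rw [bd_eq] at this
      simp only [card_filter] at this
      omega)
  rw [SimpleGraph.Subgraph.isPerfectMatching_iff] at hM
  choose μ hμ huniq using hM
  exact ⟨μ, fun a => ⟨M.adj_sub (hμ a), (huniq (μ a) a (hμ a).symm).symm⟩⟩

end pm

theorem konig_col {V D : Type} [Fintype V] [DecidableEq V] [DecidableEq D] (α β : D → V) (k : ℕ) :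
    ∀ S : Finset D, Reg α β S k → ∃ e : D → ℕ, (∀ d ∈ S, e d < k) ∧
      ∀ d ∈ S, ∀ d' ∈ S, e d = e d' → (α d = α d' ∨ β d = β d') → d = d' := by
  induction k with
  | zero =>
    intro S hS
    have : ∀ d, d ∉ S := fun d hd => by
      have := (hS (α d)).1
      rw [card_eq_zero, filter_eq_empty_iff] at this
      exact this hd rfl
    exact ⟨fun _ => 0, fun d hd => absurd hd (this d), fun d hd => absurd hd (this d)⟩
  | succ k ih =>
    intro S hS
    obtain ⟨A, hA, hr⟩ := exists_pm α β hS (by omega)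
    obtain ⟨e, h1, h2⟩ := ih (S \ A) (by simpa using hS.sdiff α β hr hA)
    refine ⟨fun d => if d ∈ A then k else e d, fun d hd => ?_, fun d hd d' hd' he hab => ?_⟩
    · by_cases a : d ∈ A
      · simp [a]
      · have := h1 d (mem_sdiff.2 ⟨hd, a⟩)
        simp only [a, if_false]; omega
    · by_cases a : d ∈ A <;> by_cases b : d' ∈ A <;> simp only [a, b, if_true, if_false] at he
      · rcases hab with h | h
        · exact card_le_one.1 (hr (α d)).1.le d (by simp [a]) d' (by simp [b, h])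
        · exact card_le_one.1 (hr (β d)).2.le d (by simp [a]) d' (by simp [b, h])
      · have := h1 d' (mem_sdiff.2 ⟨hd', b⟩); omega
      · have := h1 d (mem_sdiff.2 ⟨hd, a⟩); omega
      · exact h2 d (mem_sdiff.2 ⟨hd, a⟩) d' (mem_sdiff.2 ⟨hd', b⟩) he hab

theorem arc_col {W : Type} [Fintype W] [DecidableEq W] (R : W → W → Prop) [DecidableRel R]
    (hs : ∀ a b, R a b → R b a) (t : ℕ) (C : Finset W) (hC : ∀ a b, R a b → a ∈ C)
    (ht : ∀ a ∈ C, (univ.filter (fun b => R a b)).card = t) :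
    ∃ e : W → W → ℕ, (∀ a b, R a b → e a b < t) ∧
      (∀ a b b', R a b → R a b' → e a b = e a b' → b = b') ∧
      (∀ a a' b, R a b → R a' b → e a b = e a' b → a = a') := by
  classical
  let S : Finset (C × C) := univ.filter fun d => R d.1 d.2
  obtain ⟨e, h1, h2⟩ := konig_col (V := C) Prod.fst Prod.snd t S (by
    intro v
    constructor
    · rw [← ht v v.2]
      refine card_bij (fun d _ => (d.2 : W)) ?_ ?_ ?_
      · rintro ⟨a, b⟩ h
        simp only [S, mem_filter, mem_univ, true_and] at h ⊢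
        obtain ⟨h, rfl⟩ := h
        exact h
      · rintro ⟨a, b⟩ h ⟨a', b'⟩ h' e
        simp only [S, mem_filter, mem_univ, true_and] at h h'
        exact Prod.ext (h.2.trans h'.2.symm) (Subtype.ext e)
      · intro b hb
        simp only [mem_filter, mem_univ, true_and] at hb
        exact ⟨(v, ⟨b, hC _ _ (hs _ _ hb)⟩), by simpa [S] using hb, rfl⟩
    · rw [← ht v v.2]
      refine card_bij (fun d _ => (d.1 : W)) ?_ ?_ ?_
      · rintro ⟨a, b⟩ h
        simp only [S, mem_filter, mem_univ, true_and] at h ⊢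
        obtain ⟨h, rfl⟩ := h
        exact hs _ _ h
      · rintro ⟨a, b⟩ h ⟨a', b'⟩ h' e
        simp only [S, mem_filter, mem_univ, true_and] at h h'
        exact Prod.ext (Subtype.ext e) (h.2.trans h'.2.symm)
      · intro b hb
        simp only [mem_filter, mem_univ, true_and] at hb
        exact ⟨(⟨b, hC _ _ (hs _ _ hb)⟩, v), by simpa [S] using hs _ _ hb, rfl⟩)
  refine ⟨fun a b => if h : a ∈ C ∧ b ∈ C then e (⟨a, h.1⟩, ⟨b, h.2⟩) else 0,
    fun a b h => ?_, fun a b b' h h' he => ?_, fun a a' b h h' he => ?_⟩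
  · have c : a ∈ C ∧ b ∈ C := ⟨hC _ _ h, hC _ _ (hs _ _ h)⟩
    simp only [dif_pos c]
    exact h1 _ (by simpa [S] using h)
  · have c : a ∈ C ∧ b ∈ C := ⟨hC _ _ h, hC _ _ (hs _ _ h)⟩
    have c' : a ∈ C ∧ b' ∈ C := ⟨hC _ _ h', hC _ _ (hs _ _ h')⟩
    simp only [dif_pos c, dif_pos c'] at he
    simpa using h2 _ (by simpa [S] using h) _ (by simpa [S] using h') he (Or.inl rfl)
  · have c : a ∈ C ∧ b ∈ C := ⟨hC _ _ h, hC _ _ (hs _ _ h)⟩
    have c' : a' ∈ C ∧ b ∈ C := ⟨hC _ _ h', hC _ _ (hs _ _ h')⟩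
    simp only [dif_pos c, dif_pos c'] at he
    simpa using h2 _ (by simpa [S] using h) _ (by simpa [S] using h') he (Or.inr rfl)

theorem circ {W : Type} [Fintype W] [DecidableEq W] (O : Finset W) (h : ℕ) (hh : 2 * h < O.card) :
    ∃ R : W → W → Prop, (∀ a b, R a b → R b a) ∧ (∀ a b, R a b → a ∈ O ∧ a ≠ b) ∧
      ∀ a ∈ O, {b | R a b}.ncard = 2 * h := by
  classical
  obtain ⟨n, hn⟩ : ∃ n, O.card = n + 1 := ⟨O.card - 1, by omega⟩
  let f : O ≃ ZMod (n + 1) := Fintype.equivOfCardEq (by simp [hn])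
  let A : Finset (ZMod (n + 1)) := ((Icc (-(h : ℤ)) h).erase 0).image (fun z : ℤ => (z : ZMod _))
  have hinj : ∀ x ∈ Icc (-(h : ℤ)) h, ∀ y ∈ Icc (-(h : ℤ)) h,
      (x : ZMod (n + 1)) = (y : ZMod (n + 1)) → x = y := by
    intro x hx y hy e
    rw [ZMod.intCast_eq_intCast_iff_dvd_sub] at e
    rw [mem_Icc] at hx hy
    have := Int.eq_zero_of_abs_lt_dvd e (by rw [abs_lt]; push_cast; omega)
    omega
  have hA : A.card = 2 * h := by
    rw [card_image_of_injOn fun x hx y hy e =>
      hinj x (mem_of_mem_erase hx) y (mem_of_mem_erase hy) e, card_erase_of_mem (by simp)]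
    simp; omega
  have hneg : ∀ x ∈ A, -x ∈ A := by
    intro x hx
    obtain ⟨z, hz, rfl⟩ := mem_image.1 hx
    refine mem_image.2 ⟨-z, ?_, by simp⟩
    simp only [mem_erase, mem_Icc] at hz ⊢
    omega
  have h0 : (0 : ZMod (n + 1)) ∉ A := by
    intro hx
    obtain ⟨z, hz, e⟩ := mem_image.1 hx
    exact (mem_erase.1 hz).1 (hinj z (mem_of_mem_erase hz) 0 (by simp) (by simpa using e))
  refine ⟨fun a b => ∃ (ha : a ∈ O) (hb : b ∈ O), f ⟨b, hb⟩ - f ⟨a, ha⟩ ∈ A, ?_, ?_, ?_⟩
  · rintro a b ⟨ha, hb, h⟩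
    exact ⟨hb, ha, by simpa using hneg _ h⟩
  · rintro a b ⟨ha, hb, h⟩
    refine ⟨ha, ?_⟩
    rintro rfl
    exact h0 (by simpa using h)
  · intro a ha
    rw [← hA, ← Set.ncard_coe_finset, ← Set.ncard_image_of_injective (A : Set (ZMod (n + 1)))
      (f := fun z => (f.symm (z + f ⟨a, ha⟩) : W))
      (fun x y e => by simpa using f.symm.injective (Subtype.ext e))]
    congr 1
    ext b
    constructor
    · rintro ⟨ha', hb, h⟩
      exact ⟨_, h, by simp⟩
    · rintro ⟨z, hz, rfl⟩
      exact ⟨ha, Subtype.property _, by simpa using hz⟩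

end Pool.Agent.H721Z.WR
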