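import Mathlib
import Pool.Agent.MPd14d18.Kempe

set_option autoImplicit false

namespace Pool.Agent.H721Z.WR

open Finset Pool.Agent.MPd14d18

variable {W : Type} [Fintype W] [DecidableEq W]

theorem exists_unique_colour_gen (L : Finset ℕ) (m : ℕ → W → W) (hm : ∀ c v, m c (m c v) = v)
    (U : Finset W) (y : W → ℕ) (s : ℕ) (hs : ∑ u ∈ U, y u + 1 = 2 * s) (hcard : s ≤ L.card)
    (hmiss : ∀ u ∈ U, y u ≤ (L.filter (fun c => m c u = u)).card) :
    ∃ (m' : ℕ → W → W) (A : W → Finset ℕ), (∀ c v, m' c (m' c v) = v) ∧
      (∀ c, c ∉ L → m' c = m c) ∧ (∀ u w, mu L m' u w = mu L m u w) ∧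
      (∀ u ∈ U, A u ⊆ L.filter (fun c => m' c u = u)) ∧
      (∀ u ∈ U, (A u).card = y u) ∧
      ∃ i ∈ L, (U.filter (fun u => i ∈ A u)).card = 1 := by
  classical
  let Valid : (ℕ → W → W) → (W → Finset ℕ) → Prop := fun m' A =>
    (∀ c v, m' c (m' c v) = v) ∧
      (∀ c, c ∉ L → m' c = m c) ∧ (∀ u w, mu L m' u w = mu L m u w) ∧
      (∀ u ∈ U, A u ⊆ L.filter (fun c => m' c u = u)) ∧
      (∀ u ∈ U, (A u).card = y u)
  let x : (W → Finset ℕ) → ℕ → ℕ := fun A i => (U.filter (fun u => i ∈ A u)).card
  let Φ : (W → Finset ℕ) → ℕ := fun A => ∑ i ∈ L, (x A i) ^ 2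
  have hex : ∃ n, ∃ m' A, Valid m' A ∧ Φ A = n := by
    have : ∀ u : W, ∃ B : Finset ℕ, u ∈ U → B ⊆ L.filter (fun c => m c u = u) ∧
        B.card = y u := by
      intro u
      by_cases hu : u ∈ U
      · obtain ⟨B, hB1, hB2⟩ := Finset.exists_subset_card_eq (hmiss u hu)
        exact ⟨B, fun _ => ⟨hB1, hB2⟩⟩
      · exact ⟨∅, fun h => absurd h hu⟩
    choose A hA using this
    exact ⟨Φ A, m, A, ⟨hm, fun _ _ => rfl, fun _ _ => rfl, fun u hu => (hA u hu).1,
      fun u hu => (hA u hu).2⟩, rfl⟩
  obtain ⟨m', A, hV, hΦ⟩ := Nat.find_spec hex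
  have hmin : ∀ m'' A'', Valid m'' A'' → Φ A ≤ Φ A'' := by
    intro m'' A'' h
    rw [hΦ]
    exact Nat.find_min' hex ⟨m'', A'', h, rfl⟩
  obtain ⟨hinv, hout, hmul, hAs, hAc⟩ := hV
  refine ⟨m', A, hinv, hout, hmul, hAs, hAc, ?_⟩
  -- claim 1
  have claim1 : ∀ i ∈ L, ∀ j ∈ L, x A i ≤ x A j + 2 := by
    intro i hi j hj
    by_contra hcon
    rw [not_le] at hcon
    have hij : i ≠ j := by
      rintro rfl; omega
    let X : Finset W := U.filter (fun u => i ∈ A u)
    let Y : Finset W := U.filter (fun u => j ∈ A u)
    have hXc : X.card = x A i := rfl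
    have hYc : Y.card = x A j := rfl
    have hXfix : ∀ w ∈ X, m' i w = w := by
      intro w hw
      rw [mem_filter] at hw
      have := hAs w hw.1 hw.2
      rw [mem_filter] at this
      exact this.2
    obtain ⟨S, hSi, hSj, hlt, hle⟩ := closed_exists (m' i) (m' j) (hinv i) (hinv j) X Y hXfix
      _ univ rfl (fun w _ => mem_univ _) (fun w _ => mem_univ _)
      (by rw [Finset.univ_inter, Finset.univ_inter]; omega)
    let m'' : ℕ → W → W := fun c v => if v ∈ S then m' (Equiv.swap i j c) v else m' c v
    obtain ⟨k1, k2, k3⟩ := kempe L m' hinv i j hi hj S hSi hSj m'' (fun _ _ => rfl)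
    let A'' : W → Finset ℕ := fun u =>
      if u ∈ S then (A u).map (Equiv.swap i j).toEmbedding else A u
    have hmemA : ∀ u c, c ∈ A'' u ↔ if u ∈ S then Equiv.swap i j c ∈ A u else c ∈ A u := by
      intro u c
      by_cases hu : u ∈ S
      · simp only [A'', hu, if_true]
        rw [Finset.mem_map_equiv, Equiv.symm_swap]
      · simp only [A'', hu, if_false]
    have hV'' : Valid m'' A'' := by
      refine ⟨k1, fun c hc => (k2 c hc).trans (hout c hc), fun u w => (k3 u w).trans (hmul u w),
        ?_, ?_⟩
      · intro u hu c hc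
        rw [hmemA] at hc
        by_cases huS : u ∈ S
        · rw [if_pos huS] at hc
          have h1 := hAs u hu hc
          rw [mem_filter] at h1 ⊢
          refine ⟨?_, ?_⟩
          · by_cases hci : c = i
            · rw [hci]; exact hi
            · by_cases hcj : c = j
              · rw [hcj]; exact hj
              · rw [Equiv.swap_apply_of_ne_of_ne hci hcj] at h1; exact h1.1
          · simp only [m'', huS, if_true]
            exact h1.2
        · rw [if_neg huS] at hc
          have h1 := hAs u hu hc
          rw [mem_filter] at h1 ⊢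
          refine ⟨h1.1, ?_⟩
          simp only [m'', huS, if_false]
          exact h1.2
      · intro u hu
        by_cases huS : u ∈ S
        · simp only [A'', huS, if_true, Finset.card_map]
          exact hAc u hu
        · simp only [A'', huS, if_false]
          exact hAc u hu
    have hxother : ∀ c, c ≠ i → c ≠ j → x A'' c = x A c := by
      intro c hci hcj
      simp only [x]
      congr 1
      apply Finset.filter_congr
      intro u _
      rw [hmemA, Equiv.swap_apply_of_ne_of_ne hci hcj]
      simp
    have hxi : x A'' i = (S ∩ Y).card + (X \ S).card := by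
      simp only [x]
      rw [← Finset.card_union_of_disjoint]
      · congr 1
        ext u
        simp only [mem_filter, mem_union, mem_inter, mem_sdiff, X, Y, hmemA,
          Equiv.swap_apply_left]
        by_cases huS : u ∈ S
        · simp [huS]
        · simp [huS]
      · rw [Finset.disjoint_left]
        intro u hu hu'
        rw [mem_inter] at hu
        rw [mem_sdiff] at hu'
        exact hu'.2 hu.1
    have hxj : x A'' j = (S ∩ X).card + (Y \ S).card := by
      simp only [x]
      rw [← Finset.card_union_of_disjoint]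
      · congr 1
        ext u
        simp only [mem_filter, mem_union, mem_inter, mem_sdiff, X, Y, hmemA,
          Equiv.swap_apply_right]
        by_cases huS : u ∈ S
        · simp [huS]
        · simp [huS]
      · rw [Finset.disjoint_left]
        intro u hu hu'
        rw [mem_inter] at hu
        rw [mem_sdiff] at hu'
        exact hu'.2 hu.1
    have hXs : X.card = (S ∩ X).card + (X \ S).card := by
      rw [Finset.inter_comm, Finset.card_inter_add_card_sdiff]
    have hYs : Y.card = (S ∩ Y).card + (Y \ S).card := by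
      rw [Finset.inter_comm, Finset.card_inter_add_card_sdiff]
    have hlt' : Φ A'' < Φ A := by
      simp only [Φ]
      rw [← Finset.add_sum_erase L (fun c => (x A'' c) ^ 2) hi,
        ← Finset.add_sum_erase L (fun c => (x A c) ^ 2) hi,
        ← Finset.add_sum_erase (L.erase i) (fun c => (x A'' c) ^ 2)
          (mem_erase.mpr ⟨hij.symm, hj⟩),
        ← Finset.add_sum_erase (L.erase i) (fun c => (x A c) ^ 2)
          (mem_erase.mpr ⟨hij.symm, hj⟩)]
      have e : ∑ c ∈ (L.erase i).erase j, (x A'' c) ^ 2 =
          ∑ c ∈ (L.erase i).erase j, (x A c) ^ 2 := by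
        refine Finset.sum_congr rfl fun c hc => ?_
        rw [mem_erase, mem_erase] at hc
        rw [hxother c hc.2.1 hc.1]
      rw [e]
      have h1 : (x A'' i) ^ 2 + (x A'' j) ^ 2 < (x A i) ^ 2 + (x A j) ^ 2 := by
        rw [hxi, hxj, ← hXc, ← hYc, hXs, hYs]
        rw [← hXc, ← hYc, hXs, hYs] at hcon
        have h2 : (S ∩ X).card = (S ∩ Y).card + 1 ∨ (S ∩ X).card = (S ∩ Y).card + 2 := by
          omega
        rcases h2 with h2 | h2
        · rw [h2] at hcon ⊢
          nlinarith
        · rw [h2] at hcon ⊢
          nlinarith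
      have h1' : x A'' i ^ 2 + (x A'' j ^ 2 + ∑ c ∈ (L.erase i).erase j, (x A c) ^ 2) <
          x A i ^ 2 + (x A j ^ 2 + ∑ c ∈ (L.erase i).erase j, (x A c) ^ 2) := by omega
      exact h1'
    exact absurd (hmin m'' A'' hV'') (not_le.mpr hlt')
  -- double counting
  have hsum1 : ∑ i ∈ L, x A i = ∑ u ∈ U, (A u).card := by
    simp only [x]
    simp_rw [Finset.card_filter]
    rw [Finset.sum_comm]
    refine Finset.sum_congr rfl fun u hu => ?_
    rw [← Finset.card_filter]
    congr 1
    ext c
    rw [mem_filter]
    constructor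
    · intro h; exact h.2
    · intro h
      have := hAs u hu h
      rw [mem_filter] at this
      exact ⟨this.1, h⟩
  have hsum2 : ∑ u ∈ U, (A u).card + 1 = 2 * s := by
    rw [Finset.sum_congr rfl hAc, hs]
  by_contra hno
  push Not at hno
  have hex0 : ∃ j ∈ L, x A j = 0 := by
    by_contra h0
    push Not at h0
    have h2 : ∀ i ∈ L, 2 ≤ x A i := by
      intro i hi
      have h3 := h0 i hi
      have h4 : x A i ≠ 1 := hno i hi
      omega
    have h5 : ∑ i ∈ L, 2 ≤ ∑ i ∈ L, x A i := Finset.sum_le_sum h2
    simp at h5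
    omega
  obtain ⟨j, hj, hj0⟩ := hex0
  have heven : Even (∑ i ∈ L, x A i) := by
    apply Finset.even_sum
    intro i hi
    have h1 := claim1 i hi j hj
    have h2 : x A i ≠ 1 := hno i hi
    have h3 : x A i = 0 ∨ x A i = 2 := by omega
    rcases h3 with h3 | h3 <;> rw [h3] <;> decide
  obtain ⟨r, hr⟩ := heven
  omega

theorem add_vertex_gen (x : W) :
    ∀ (n : ℕ) (L : Finset ℕ), L.card = n → ∀ (m : ℕ → W → W), (∀ c v, m c (m c v) = v) →
    (∀ c ∈ L, m c x = x) → ∀ (dm : W → ℕ) (u0 : W), dm x = 0 → ∑ u, dm u ≤ n →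
    (∀ u, 2 * dm u ≤ (L.filter (fun c => m c u = u)).card + if u = u0 then 1 else 0) →
    ∃ m' : ℕ → W → W, (∀ c v, m' c (m' c v) = v) ∧ (∀ c, c ∉ L → m' c = m c) ∧
      ∀ u w, u ≠ w → mu L m' u w = mu L m u w +
        (if u = x then dm w else 0) + (if w = x then dm u else 0) := by
  intro n
  induction n with
  | zero =>
    intro L hL m hm hx dm u0 hx0 hU hmiss
    have h0 : ∀ u, dm u = 0 := fun u => by
      have := single_le_sum (f := dm) (fun _ _ => Nat.zero_le _) (mem_univ u)
      omega
    exact ⟨m, hm, fun _ _ => rfl, fun u w _ => by simp [h0]⟩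
  | succ n ih =>
    intro L hL m hm hx dm u0 hx0 hU hmiss
    by_cases hUe : ∀ u, dm u = 0
    · exact ⟨m, hm, fun _ _ => rfl, fun u w _ => by simp [hUe]⟩
    push Not at hUe
    obtain ⟨v0, hv0, hmiss0⟩ : ∃ v0, dm v0 ≠ 0 ∧ ∀ u, 2 * dm u ≤
        (L.filter (fun c => m c u = u)).card + if u = v0 then 1 else 0 := by
      by_cases h0 : dm u0 ≠ 0
      · exact ⟨u0, h0, hmiss⟩
      · obtain ⟨v0, hv0⟩ := hUe
        refine ⟨v0, hv0, fun u => ?_⟩
        have h1 := hmiss u
        by_cases h2 : u = u0
        · subst h2; omega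
        · rw [if_neg h2] at h1; omega
    let y : W → ℕ := fun u => 2 * dm u - if u = v0 then 1 else 0
    have hy : ∀ u, y u + (if u = v0 then 1 else 0) = 2 * dm u := by
      intro u
      simp only [y]
      split_ifs with h
      · subst h; omega
      · omega
    obtain ⟨m1, A, h1inv, h1out, h1mu, hAs, hAc, i, hi, hone⟩ :=
      exists_unique_colour_gen L m hm univ y (∑ u, dm u)
        (by
          rw [mul_sum, ← sum_congr rfl (fun u _ => hy u), sum_add_distrib]
          simp)
        (by omega) (fun u _ => by have := hmiss0 u; have := hy u; omega)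
    obtain ⟨u1, hu1⟩ := Finset.card_eq_one.mp hone
    have hu1U : i ∈ A u1 := by
      have : u1 ∈ univ.filter (fun u => i ∈ A u) := by rw [hu1]; exact mem_singleton_self _
      exact (mem_filter.1 this).2
    have honly : ∀ u, u ≠ u1 → i ∉ A u := by
      intro u hne hiA
      have : u ∈ univ.filter (fun u => i ∈ A u) := mem_filter.mpr ⟨mem_univ _, hiA⟩
      rw [hu1, mem_singleton] at this
      exact hne this
    have hm1u1 : m1 i u1 = u1 := (mem_filter.1 (hAs u1 (mem_univ _) hu1U)).2
    have hd1 : dm u1 ≠ 0 := by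
      have a := hAc u1 (mem_univ _)
      have b := card_pos.2 ⟨i, hu1U⟩
      have c := hy u1
      omega
    have hm1x : ∀ c ∈ L, m1 c x = x := by
      have e1 : mu L m x x = L.card := by
        rw [mu_eq_card]
        congr 1
        exact Finset.filter_true_of_mem hx
      have e2 : (L.filter (fun c => m1 c x = x)).card = L.card := by
        rw [← mu_eq_card, h1mu, e1]
      intro c hc
      exact Finset.card_filter_eq_iff.mp e2 c hc
    have hxu1 : x ≠ u1 := fun h => hd1 (h ▸ hx0)
    have hLe : (L.erase i).card = n := by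
      rw [Finset.card_erase_of_mem hi]; omega
    let dm' : W → ℕ := fun u => dm u - if u = u1 then 1 else 0
    have hdm' : ∀ u, dm' u + (if u = u1 then 1 else 0) = dm u := by
      intro u
      simp only [dm']
      split_ifs with h
      · subst h; omega
      · omega
    obtain ⟨m2, h2inv, h2out, h2mu⟩ := ih (L.erase i) hLe m1 h1inv
      (fun c hc => hm1x c (mem_of_mem_erase hc)) dm' v0 (by simp [dm', hx0])
      (by
        have : ∑ u, dm' u + 1 = ∑ u, dm u := by
          rw [← sum_congr rfl (fun u _ => hdm' u), sum_add_distrib]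
          simp
        omega)
      (by
        intro u
        have h3 : (A u).erase i ⊆ (L.erase i).filter (fun c => m1 c u = u) := by
          intro c hc
          rw [mem_erase] at hc
          have h3 := hAs u (mem_univ _) hc.2
          rw [mem_filter] at h3 ⊢
          exact ⟨mem_erase.2 ⟨hc.1, h3.1⟩, h3.2⟩
        have h4 := card_le_card h3
        have h5 := hAc u (mem_univ _)
        have h6 := hy u
        have h7 := hdm' u
        by_cases hu : u = u1
        · have := pred_card_le_card_erase (s := A u) (a := i)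
          rw [if_pos hu] at h7
          omega
        · rw [erase_eq_of_notMem (honly u hu)] at h4
          rw [if_neg hu] at h7
          omega)
    have h2i : m2 i = m1 i := h2out i (by simp)
    obtain ⟨m3, h3inv, h3out, h3mu⟩ := add_edge L m2 h2inv i hi x u1 hxu1
      (by rw [h2i]; exact hm1x i hi) (by rw [h2i]; exact hm1u1)
    refine ⟨m3, h3inv, ?_, ?_⟩
    · intro c hc
      have hci : c ≠ i := fun h => hc (h ▸ hi)
      rw [h3out c hci, h2out c (fun h => hc (mem_of_mem_erase h)), h1out c hc]
    · intro u w huw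
      rw [h3mu u w huw, mu_erase L m2 i hi, h2mu u w huw, h2i, ← h1mu u w,
        mu_erase L m1 i hi]
      have a := hdm' u
      have b := hdm' w
      by_cases hux : u = x
      · subst hux
        have hwu : w ≠ u := huw.symm
        by_cases hw1 : w = u1
        · subst hw1
          simp only [if_true, hwu, if_false, true_and, true_or] at a b ⊢
          omega
        · simp only [if_true, hwu, hw1, if_false, and_false, or_self] at a b ⊢
          omega
      · by_cases hwx : w = x
        · subst hwx
          by_cases hu1' : u = u1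
          · subst hu1'
            simp only [if_true, hux, if_false, and_true, or_true] at a b ⊢
            omega
          · simp only [if_true, hux, hu1', if_false, false_and, or_self] at a b ⊢
            omega
        · simp [hux, hwx]

/-- Vizing type theorem for multigraphs, with an elimination order. -/
theorem multi_colour (L : Finset ℕ) (μ : W → W → ℕ) (hsym : ∀ u w, μ u w = μ w u)
    (hdiag : ∀ u, μ u u = 0) (S : Finset W) : (∀ u ∈ S, ∑ w ∈ S, μ u w ≤ L.card) →
    (∀ T ⊆ S, T.Nonempty → ∃ x ∈ T, ∃ u0, ∀ u ∈ T, μ u x ≠ 0 →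
      ∑ w ∈ T, μ u w + μ u x ≤ L.card + if u = u0 then 1 else 0) →
    ∃ m : ℕ → W → W, (∀ c v, m c (m c v) = v) ∧
      ∀ u w, u ≠ w → mu L m u w = if u ∈ S ∧ w ∈ S then μ u w else 0 := by
  induction S using Finset.strongInduction with
  | H S ih =>
  intro hdeg hel
  rcases S.eq_empty_or_nonempty with rfl | hne
  · exact ⟨fun _ v => v, fun _ _ => rfl, fun u w h => by simp [mu, h]⟩
  obtain ⟨x, hx, u0, hu0⟩ := hel S Subset.rfl hne
  obtain ⟨m, hm, hmu⟩ := ih (S.erase x) (erase_ssubset hx)
    (fun u hu => (sum_le_sum_of_subset (erase_subset _ _)).trans (hdeg u (mem_of_mem_erase hu)))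
    (fun T hT => hel T (hT.trans (erase_subset _ _)))
  have hmiss : ∀ u, (L.filter (fun c => m c u = u)).card +
      (if u ∈ S.erase x then ∑ w ∈ S.erase x, μ u w else 0) = L.card := by
    intro u
    have h1 : ∑ w, mu L m u w = L.card := by
      unfold mu
      rw [Finset.sum_comm]
      simp
    rw [← h1, ← add_sum_erase univ (fun w => mu L m u w) (mem_univ u), mu_eq_card]
    congr 1
    rw [sum_congr rfl (fun w hw => hmu u w (ne_of_mem_erase hw).symm)]
    rw [sum_erase (f := fun w => if u ∈ S.erase x ∧ w ∈ S.erase x then μ u w else 0) univ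
      (by simp [hdiag])]
    by_cases h : u ∈ S.erase x
    · simp only [h, true_and, if_true]
      rw [← sum_filter]
      congr 1
      ext; simp
    · simp [h]
  obtain ⟨m', hm', -, hmu'⟩ := add_vertex_gen x L.card L rfl m hm
    (by
      have := hmiss x
      simp only [mem_erase, ne_eq, not_true_eq_false, false_and, if_false, add_zero] at this
      exact Finset.card_filter_eq_iff.mp this)
    (fun u => if u ∈ S then μ u x else 0) u0 (by simp [hdiag])
    (by
      rw [← sum_filter, filter_mem_eq_inter, univ_inter, sum_congr rfl (fun u _ => hsym u x)]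
      exact hdeg x hx)
    (by
      intro u
      by_cases h : u ∈ S ∧ μ u x ≠ 0
      · have a := hu0 u h.1 h.2
        have b := hmiss u
        have hux : u ≠ x := fun e => h.2 (e ▸ hdiag u)
        rw [if_pos (mem_erase.2 ⟨hux, h.1⟩)] at b
        rw [← add_sum_erase S _ hx] at a
        rw [if_pos h.1]
        omega
      · have : (if u ∈ S then μ u x else 0) = 0 := by
          split_ifs with a
          · by_contra b; exact h ⟨a, b⟩
          · rfl
        rw [this]; omega)
  refine ⟨m', hm', fun u w huw => ?_⟩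
  rw [hmu' u w huw, hmu u w huw]
  by_cases a : u = x
  · subst a
    simp [huw.symm, hx, hsym w u]
  · by_cases b : w = x
    · subst b
      simp [a, hx]
    · simp [a, b]

end Pool.Agent.H721Z.WR
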