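import Mathlib
import Pool.Agent.H721Z.WR.Viz
import Pool.Agent.H721Z.WR.Tools

set_option autoImplicit false

namespace Pool.Agent.H721Z.WR

open Finset Pool.Agent.MPd14d18
open Classical

variable {W : Type} [Fintype W] (G : SimpleGraph W)

/-- same orbit of the automorphism group -/
def orb (u v : W) : Prop := ∃ φ : G ≃g G, φ u = v

omit [Fintype W] in
theorem orb_refl (u : W) : orb G u u := ⟨RelIso.refl _, rfl⟩

variable {G}

omit [Fintype W] in
theorem orb.symm {u v : W} : orb G u v → orb G v u :=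
  fun ⟨φ, h⟩ => ⟨φ.symm, by rw [← h]; simp⟩

omit [Fintype W] in
theorem orb.trans {u v w : W} : orb G u v → orb G v w → orb G u w :=
  fun ⟨φ, h⟩ ⟨ψ, h'⟩ => ⟨φ.trans ψ, by simp [h, h']⟩

omit [Fintype W] in
theorem orb_map (φ : G ≃g G) (u : W) : orb G u (φ u) := ⟨φ, rfl⟩

variable (G)

theorem inner_R (o : W) : ∃ (h : ℕ) (R : W → W → Prop),
    2 * h < (univ.filter fun b => orb G o b).card ∧ (∀ a b, R a b → R b a) ∧
    (∀ a b, R a b → orb G o a ∧ a ≠ b) ∧
    (∀ a, orb G o a → (univ.filter fun b => R a b).card = 2 * h) ∧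
    ∀ a, orb G o a → ∀ b b', (G.Adj a b ∧ orb G a b ∧ ¬ R a b) →
      (G.Adj a b' ∧ orb G a b' ∧ ¬ R a b') → b = b' := by
  set e := (univ.filter fun b => G.Adj o b ∧ orb G o b).card with hedef
  have he : ∀ a, orb G o a → (univ.filter fun b => G.Adj a b ∧ orb G o b).card = e := by
    rintro a ⟨φ, rfl⟩
    rw [hedef]
    symm
    refine card_bij (fun b _ => φ b) ?_ ?_ ?_
    · intro b hb
      simp only [mem_filter, mem_univ, true_and] at hb ⊢
      exact ⟨φ.map_rel_iff.2 hb.1, hb.2.trans (orb_map φ b)⟩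
    · intro b _ b' _ h
      exact φ.injective h
    · intro b hb
      simp only [mem_filter, mem_univ, true_and] at hb ⊢
      obtain ⟨b, rfl⟩ := φ.surjective b
      exact ⟨b, ⟨φ.map_rel_iff.1 hb.1, hb.2.trans (orb_map φ b).symm⟩, rfl⟩
  have hlt : e < (univ.filter fun b => orb G o b).card := by
    refine card_lt_card ⟨fun b hb => ?_, fun h => ?_⟩
    · simp only [mem_filter, mem_univ, true_and] at hb ⊢
      exact hb.2
    · have := h (show o ∈ _ by simpa using orb_refl G o)
      simp at this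
  rcases Nat.even_or_odd' e with ⟨h, hh | hh⟩
  · refine ⟨h, fun a b => orb G o a ∧ G.Adj a b ∧ orb G o b, by omega,
      fun a b h => ⟨h.2.2, h.2.1.symm, h.1⟩, fun a b h => ⟨h.1, h.2.1.ne⟩, fun a ha => ?_,
      fun a ha b b' h1 _ => absurd ⟨ha, h1.1, ha.trans h1.2.1⟩ h1.2.2⟩
    rw [← hh, ← he a ha]
    simp [ha]
  · obtain ⟨p, hp⟩ := pm_of_trans (X := {a // orb G o a}) (G.comap Subtype.val) e ⟨h, hh⟩
      (fun v => by
        rw [← he v v.2, ← SimpleGraph.card_neighborFinset_eq_degree]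
        refine card_bij (fun b _ => (b : W)) ?_ ?_ ?_
        · intro b hb
          simp only [mem_filter, mem_univ, true_and]
          exact ⟨by simpa using hb, b.2⟩
        · intro b _ b' _ h
          exact Subtype.ext h
        · intro b hb
          simp only [mem_filter, mem_univ, true_and] at hb
          exact ⟨⟨b, hb.2⟩, by simpa using hb.1, rfl⟩)
      (fun u v => by
        obtain ⟨φ, hφ⟩ := u.2.symm.trans v.2
        refine ⟨Equiv.Perm.subtypePerm φ.toEquiv (fun x =>
          ⟨fun h => h.trans (orb_map φ x).symm, fun h => h.trans (orb_map φ x)⟩), fun a b => ?_,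
          Subtype.ext hφ⟩
        exact φ.map_rel_iff)
    refine ⟨h, fun a b => ∃ (ha : orb G o a) (_ : orb G o b), G.Adj a b ∧ b ≠ p ⟨a, ha⟩, by omega,
      ?_, ?_, fun a ha => ?_, fun a ha b b' h1 h2 => ?_⟩
    · rintro a b ⟨ha, hb, h1, h2⟩
      refine ⟨hb, ha, h1.symm, fun h => h2 ?_⟩
      have : (⟨a, ha⟩ : {a // orb G o a}) = p ⟨b, hb⟩ := Subtype.ext h
      rw [this, (hp _).2]
    · rintro a b ⟨ha, hb, h1, h2⟩
      exact ⟨ha, h1.ne⟩
    · have : (univ.filter fun b => ∃ (ha : orb G o a) (_ : orb G o b), G.Adj a b ∧ b ≠ p ⟨a, ha⟩) =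
          (univ.filter fun b => G.Adj a b ∧ orb G o b).erase (p ⟨a, ha⟩) := by
        ext b
        simp only [mem_filter, mem_univ, true_and, mem_erase]
        exact ⟨fun ⟨_, h1, h2, h3⟩ => ⟨h3, h2, h1⟩, fun ⟨h3, h2, h1⟩ => ⟨ha, h1, h2, h3⟩⟩
      refine (congrArg card (by convert this)).trans (b := ((univ.filter fun b => G.Adj a b ∧ orb G o b).erase (p ⟨a, ha⟩)).card) ?_
      rw [card_erase_of_mem, he a ha]
      · omega
      · simp only [mem_filter, mem_univ, true_and]
        exact ⟨(hp ⟨a, ha⟩).1, (p ⟨a, ha⟩).2⟩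
    · have c1 : b = p ⟨a, ha⟩ := by
        by_contra c
        exact h1.2.2 ⟨ha, ha.trans h1.2.1, h1.1, c⟩
      have c2 : b' = p ⟨a, ha⟩ := by
        by_contra c
        exact h2.2.2 ⟨ha, ha.trans h2.2.1, h2.1, c⟩
      rw [c1, c2]

theorem exists_R (C : Finset W) (hC : ∀ a ∈ C, ∀ b, orb G a b → b ∈ C) (o : W)
    (hmin : ∀ u ∈ C, (univ.filter fun b => orb G o b).card ≤ (univ.filter fun b => orb G u b).card) :
    ∃ (t : ℕ) (R : W → W → Prop),
    t < (univ.filter fun b => orb G o b).card ∧ (∀ a b, R a b → R b a) ∧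
    (∀ a b, R a b → a ∈ C ∧ orb G a b ∧ a ≠ b) ∧
    (∀ a ∈ C, (univ.filter fun b => R a b).card = t) ∧
    ∀ a ∈ C, orb G o a → ∀ b b', (G.Adj a b ∧ orb G a b ∧ ¬ R a b) →
      (G.Adj a b' ∧ orb G a b' ∧ ¬ R a b') → b = b' := by
  obtain ⟨h, R1, h1, h2, h3, h4, h5⟩ := inner_R G o
  have : ∀ O : Finset W, ∃ R : W → W → Prop, 2 * h < O.card → (∀ a b, R a b → R b a) ∧
      (∀ a b, R a b → a ∈ O ∧ a ≠ b) ∧ ∀ a ∈ O, {b | R a b}.ncard = 2 * h := by
    intro O
    by_cases c : 2 * h < O.card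
    · obtain ⟨R, hR⟩ := circ O h c
      exact ⟨R, fun _ => hR⟩
    · exact ⟨fun _ _ => False, fun h => absurd h c⟩
  choose Rc hRc using this
  let O : W → Finset W := fun a => univ.filter fun b => orb G a b
  have hO : ∀ a b, orb G a b → O a = O b := by
    intro a b h
    ext c
    simp only [O, mem_filter, mem_univ, true_and]
    exact ⟨fun k => h.symm.trans k, fun k => h.trans k⟩
  have hR := fun a (ha : a ∈ C) => hRc (O a) (lt_of_lt_of_le h1 (hmin a ha))
  have key : ∀ a b, (a ∈ C ∧ if orb G o a then R1 a b else Rc (O a) a b) → orb G a b ∧ a ≠ b := by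
    rintro a b ⟨ha, h⟩
    split_ifs at h with c
    · exact ⟨c.symm.trans (h3 _ _ (h2 _ _ h)).1, (h3 _ _ h).2⟩
    · exact ⟨by simpa [O] using ((hR a ha).2.1 _ _ ((hR a ha).1 _ _ h)).1, ((hR a ha).2.1 _ _ h).2⟩
  refine ⟨2 * h, fun a b => a ∈ C ∧ if orb G o a then R1 a b else Rc (O a) a b, h1,
    fun a b h => ?_, fun a b h => ⟨h.1, key a b h⟩, fun a ha => ?_, fun a ha hoa b b' k1 k2 => ?_⟩
  · have k := (key a b h).1
    obtain ⟨ha, h⟩ := h
    refine ⟨hC a ha b k, ?_⟩
    by_cases c : orb G o a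
    · rw [if_pos c] at h
      rw [if_pos (c.trans k)]
      exact h2 _ _ h
    · rw [if_neg c] at h
      rw [if_neg (fun c' => c (c'.trans k.symm)), ← hO a b k]
      exact (hR a ha).1 _ _ h
  · by_cases c : orb G o a
    · rw [← h4 a c]
      simp [ha, c]
    · rw [← (hR a ha).2.2 a (by simpa [O] using orb_refl G a), ← Set.ncard_coe_finset]
      simp [ha, c]
  · simp only [ha, hoa, true_and, if_true] at k1 k2
    exact h5 a hoa b b' k1 k2

/-- admissible slots -/
def valid (Δ : ℕ) (u w : W) (s : ℕ) : Prop :=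
  (s = 0 ∧ G.Adj u w) ∨ (1 ≤ s ∧ s ≤ Δ ∧ orb G u w)

omit [Fintype W] in
theorem valid_symm {Δ : ℕ} {u w : W} {s : ℕ} (h : valid G Δ u w s) : valid G Δ w u s :=
  h.imp (fun h => ⟨h.1, h.2.symm⟩) (fun h => ⟨h.1, h.2.1, h.2.2.symm⟩)

/-- the local properties of a slot colouring -/
def Good (Δ D : ℕ) (K : W → W → ℕ → ℕ) (u : W) : Prop :=
  (∀ w s, valid G Δ u w s → K u w s < D) ∧ (∀ w, G.Adj u w → K u w 0 = K w u 0) ∧
    ∀ w w' s s', valid G Δ u w s → valid G Δ u w' s' →
      (K u w s = K u w' s' → w = w' ∧ s = s') ∧ (K w u s = K w' u s' → w = w' ∧ s = s') ∧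
        (K u w s = K w' u s' → s = s')

theorem core (Δ D : ℕ) (hΔ : 1 ≤ Δ)
    (hD : ∀ u, (univ.filter fun w => G.Adj u w).card +
      Δ * (univ.filter fun w => orb G u w).card ≤ D)
    (C : Finset W) (hC : ∀ a ∈ C, ∀ b, G.Adj a b ∨ orb G a b → b ∈ C) (o : W)
    (hmin : ∀ u ∈ C, (univ.filter fun b => orb G o b).card ≤ (univ.filter fun b => orb G u b).card)
    (hconn : ∀ T : Set W, (∀ a ∈ T, ∀ b, G.Adj a b ∨ orb G a b → b ∈ T) →
      ∀ a ∈ C, a ∈ T → o ∈ T) :
    ∃ K : W → W → ℕ → ℕ, ∀ u ∈ C, Good G Δ D K u := by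
  obtain ⟨t, R, ht, hs, hR, hc, hh⟩ := exists_R G C (fun a ha b h => hC a ha b (Or.inr h)) o hmin
  obtain ⟨e, e1, e2, e3⟩ := arc_col R hs t C (fun a b h => (hR a b h).1) hc
  obtain ⟨k, rfl⟩ : ∃ k, D = k + t := ⟨D - t, by have := hD o; have := Nat.mul_le_mul_right (univ.filter fun w => orb G o w).card hΔ; omega⟩
  let sl : W → W → Finset ℕ := fun u w =>
    (range (Δ + 1)).filter fun s => valid G Δ u w s ∧ ¬ (s = 1 ∧ R u w)
  have slsym : ∀ u w, sl u w = sl w u := by
    intro u w
    ext s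
    simp only [sl, mem_filter]
    exact ⟨fun h => ⟨h.1, valid_symm G h.2.1, fun c => h.2.2 ⟨c.1, hs _ _ c.2⟩⟩,
      fun h => ⟨h.1, valid_symm G h.2.1, fun c => h.2.2 ⟨c.1, hs _ _ c.2⟩⟩⟩
  have slc : ∀ u w, (sl u w).card + (if R u w then 1 else 0) =
      (if G.Adj u w then 1 else 0) + Δ * (if orb G u w then 1 else 0) := by
    intro u w
    obtain ⟨d, rfl⟩ : ∃ d, Δ = d + 1 := ⟨Δ - 1, by omega⟩
    simp only [sl]
    rw [card_filter, sum_range_succ', sum_range_succ', sum_congr rfl (g := fun _ => if orb G u w then 1 else 0)]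
    · have := fun h => (hR u w h).2.1
      by_cases a : R u w <;> by_cases b : orb G u w <;> by_cases c : G.Adj u w <;>
        first | exact absurd (this a) b | (simp [valid, a, b, c]; done) | (simp [valid, a, b, c]; omega)
    · intro i hi
      have := mem_range.1 hi
      have a : i + 1 + 1 ≤ d + 1 := by omega
      simp [a, valid]
  let μ : W → W → ℕ := fun u w => if u = w then 0 else (sl u w).card
  have hμ : ∀ u w, u ≠ w → μ u w = (sl u w).card := fun u w h => if_neg h
  have hloop : ∀ u, (sl u u).card = Δ := by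
    intro u
    have := slc u u
    have a : ¬ R u u := fun h => (hR u u h).2.2 rfl
    simpa [a, orb_refl] using this
  have hdeg : ∀ u ∈ C, ∑ w, μ u w + Δ ≤ k := by
    intro u hu
    have a : ∑ w, μ u w + Δ = ∑ w, (sl u w).card := by
      rw [← sum_erase_add _ _ (mem_univ u), ← sum_erase_add _ _ (mem_univ u), hloop,
        sum_congr rfl fun w hw => hμ u w (ne_of_mem_erase hw).symm]
      simp [μ]
    have b := sum_congr (rfl : univ = univ) fun w _ => slc u w
    rw [sum_add_distrib, sum_add_distrib, ← mul_sum, ← card_filter, ← card_filter, ← card_filter,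
      hc u hu] at b
    have := hD u
    omega
  have hle : ∀ u (T : Finset W), ∑ w ∈ T, μ u w ≤ ∑ w, μ u w :=
    fun u T => sum_le_sum_of_subset (subset_univ T)
  obtain ⟨m, hm, hmu⟩ := multi_colour (range k) μ
    (fun u w => by simp only [μ, slsym u w, eq_comm]) (fun u => if_pos rfl) C
    (fun u hu => by have := hdeg u hu; have := hle u C; rw [card_range]; omega)
    (fun T hT hne => by
      by_contra hno
      push Not at hno
      have bad : ∀ x ∈ T, ∀ u0, ∃ u, u ≠ u0 ∧ (G.Adj x u ∧ orb G x u ∧ ¬ R x u) ∧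
          ∀ w, G.Adj u w → w ∈ T := by
        intro x hx u0
        obtain ⟨u, hu, h0, hlt⟩ := hno x hx u0
        rw [card_range] at hlt
        have a1 := hdeg u (hT hu)
        have a2 := hle u T
        have a3 : u ≠ x := fun c => h0 (if_pos c)
        have a4 := slc u x
        rw [← hμ u x a3] at a4
        have a5 : G.Adj u x ∧ orb G u x ∧ ¬ R u x ∧ μ u x = Δ + 1 := by
          by_cases a : R u x <;> by_cases b : orb G u x <;> by_cases c : G.Adj u x <;>
            simp only [a, b, c, if_true, if_false] at a4 <;> first | omega | simp only [a, b, c]; simp; omega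
        refine ⟨u, fun c => ?_, ⟨a5.1.symm, a5.2.1.symm, fun c => a5.2.2.1 (hs _ _ c)⟩,
          fun w hw => ?_⟩
        · rw [if_pos c] at hlt; omega
        · by_contra c
          have b1 := hle u (insert w T)
          rw [sum_insert c, hμ u w hw.ne] at b1
          have : 0 < (sl u w).card := card_pos.2 ⟨0, by simp [sl, valid, hw]⟩
          omega
      obtain ⟨x, hx⟩ := hne
      obtain ⟨y, hy, hyo⟩ := hconn {a | ∃ x ∈ T, orb G x a} (by
        rintro a ⟨x, hx, hxa⟩ b (h | h)
        · obtain ⟨u, -, hu, hfull⟩ := bad x hx x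
          obtain ⟨φ, rfl⟩ := hu.2.1.symm.trans hxa
          obtain ⟨b, rfl⟩ := φ.surjective b
          exact ⟨b, hfull b (φ.map_rel_iff.1 h), orb_map φ b⟩
        · exact ⟨x, hx, hxa.trans h⟩) x (hT hx) ⟨x, hx, orb_refl G x⟩
      obtain ⟨u1, -, h1, -⟩ := bad y hy y
      obtain ⟨u2, hne, h2, -⟩ := bad y hy u1
      exact hne (hh y (hT hy) hyo.symm _ _ h2 h1))
  let cl : W → W → Finset ℕ := fun u w => (range k).filter fun c => m c u = w
  have clsym : ∀ u w, cl u w = cl w u := by
    intro u w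
    ext c
    simp only [cl, mem_filter]
    exact ⟨fun h => ⟨h.1, by rw [← h.2, hm]⟩, fun h => ⟨h.1, by rw [← h.2, hm]⟩⟩
  have hcl : ∀ u ∈ C, ∀ w ∈ C, (sl u w).card ≤ (cl u w).card := by
    intro u hu w hw
    by_cases c : u = w
    · subst c
      have a : (range k).card = ∑ w, (cl u w).card :=
        card_eq_sum_card_fiberwise (f := fun c => m c u) (fun _ _ => mem_univ _)
      rw [← sum_erase_add _ _ (mem_univ u), card_range] at a
      have b : ∑ w ∈ univ.erase u, (cl u w).card ≤ ∑ w ∈ univ.erase u, μ u w := by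
        refine sum_le_sum fun w hw => ?_
        have := hmu u w (ne_of_mem_erase hw).symm
        rw [mu_eq_card] at this
        simp only [cl]
        rw [this]
        split_ifs <;> simp
      have := hle u (univ.erase u)
      have := hdeg u hu
      rw [hloop]
      omega
    · have := hmu u w c
      rw [mu_eq_card, if_pos ⟨hu, hw⟩, hμ u w c] at this
      exact this.ge
  have : ∀ A B : Finset ℕ, ∃ f : ℕ → ℕ, A.card ≤ B.card →
      (∀ a ∈ A, f a ∈ B) ∧ ∀ a ∈ A, ∀ a' ∈ A, f a = f a' → a = a' := by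
    intro A B
    by_cases c : A.card ≤ B.card
    · obtain ⟨g⟩ := Function.Embedding.nonempty_of_card_le (α := A) (β := B) (by simpa using c)
      refine ⟨fun a => if h : a ∈ A then g ⟨a, h⟩ else 0, fun _ => ⟨fun a ha => ?_,
        fun a ha a' ha' h => ?_⟩⟩
      · simp [ha]
      · simp only [ha, ha', dif_pos] at h
        simpa using g.injective (Subtype.ext h)
    · exact ⟨id, fun h => absurd h c⟩
  choose f hf using this
  let B : W → W → ℕ → ℕ := fun u w => f (sl u w) (cl u w)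
  have Bsym : ∀ u w, B u w = B w u := fun u w => by simp only [B, slsym u w, clsym u w]
  refine ⟨fun u w s => if s = 1 ∧ R u w then k + e u w else B u w s, fun u hu => ?_⟩
  have hv : ∀ w s, valid G Δ u w s → w ∈ C := fun w s h =>
    hC u hu w (h.imp (fun h => h.2) (fun h => h.2.2))
  have hsl : ∀ w s, valid G Δ u w s → ¬ (s = 1 ∧ R u w) → s ∈ sl u w := fun w s h h' => by
    simp only [sl, mem_filter, mem_range]
    exact ⟨by rcases h with h | h <;> omega, h, h'⟩
  have hB : ∀ w s, valid G Δ u w s → ¬ (s = 1 ∧ R u w) → B u w s < k ∧ m (B u w s) u = w :=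
    fun w s h h' => by
      simpa [cl] using (hf _ _ (hcl u hu w (hv w s h))).1 s (hsl w s h h')
  have hBi : ∀ w w' s s', valid G Δ u w s → valid G Δ u w' s' → ¬ (s = 1 ∧ R u w) →
      ¬ (s' = 1 ∧ R u w') → B u w s = B u w' s' → w = w' ∧ s = s' := by
    intro w w' s s' h h' c c' he
    have : w = w' := by rw [← (hB w s h c).2, he, (hB w' s' h' c').2]
    subst this
    exact ⟨rfl, (hf _ _ (hcl u hu w (hv w s h))).2 s (hsl w s h c) s' (hsl w s' h' c') he⟩
  have hRs : ∀ w, R w u ↔ R u w := fun w => ⟨hs _ _, hs _ _⟩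
  refine ⟨fun w s h => ?_, fun w _ => by simp [Bsym u w], fun w w' s s' h h' => ?_⟩
  · by_cases c : s = 1 ∧ R u w
    · have := e1 u w c.2
      simp only [if_pos c]; omega
    · have := hB w s h c
      simp only [if_neg c]; omega
  · simp only [hRs, Bsym w u, Bsym w' u]
    by_cases c : s = 1 ∧ R u w <;> by_cases c' : s' = 1 ∧ R u w'
    · simp only [if_pos c, if_pos c', add_right_inj]
      have : s = s' := c.1.trans c'.1.symm
      exact ⟨fun h => ⟨e2 _ _ _ c.2 c'.2 h, this⟩,
        fun h => ⟨e3 _ _ _ (hs _ _ c.2) (hs _ _ c'.2) h, this⟩, fun _ => this⟩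
    · simp only [if_pos c, if_neg c']
      have := hB w' s' h' c'
      omega
    · simp only [if_neg c, if_pos c']
      have := hB w s h c
      omega
    · simp only [if_neg c, if_neg c']
      have := hBi w w' s s' h h' c c'
      exact ⟨this, this, fun h => (this h).2⟩

theorem glue (Δ D : ℕ) (hΔ : 1 ≤ Δ)
    (hD : ∀ u, (univ.filter fun w => G.Adj u w).card +
      Δ * (univ.filter fun w => orb G u w).card ≤ D) :
    ∃ K : W → W → ℕ → ℕ, ∀ u, Good G Δ D K u := by
  let rel : W → W → Prop := fun a b => G.Adj a b ∨ orb G a b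
  have rs : ∀ a b, rel a b → rel b a := fun a b h => h.imp (fun h => h.symm) (fun h => h.symm)
  have rts : ∀ a b, Relation.ReflTransGen rel a b → Relation.ReflTransGen rel b a := by
    intro a b h
    induction h with
    | refl => exact .refl
    | tail _ h ih => exact .head (rs _ _ h) ih
  let comp : W → Finset W := fun u => univ.filter fun w => Relation.ReflTransGen rel u w
  have : ∀ C : Finset W, ∃ K : W → W → ℕ → ℕ, (∃ u, C = comp u) → ∀ u ∈ C, Good G Δ D K u := by
    intro C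
    by_cases c : ∃ u, C = comp u
    · obtain ⟨u, rfl⟩ := c
      obtain ⟨o, ho, hmin⟩ := exists_min_image (comp u)
        (fun a => (univ.filter fun b => orb G a b).card) ⟨u, by simp [comp, Relation.ReflTransGen.refl]⟩
      obtain ⟨K, hK⟩ := core G Δ D hΔ hD (comp u) (fun a ha b h => by
          simp only [comp, mem_filter, mem_univ, true_and] at ha ⊢
          exact ha.tail h) o hmin (fun T hT a ha haT => by
          simp only [comp, mem_filter, mem_univ, true_and] at ha ho
          have := (rts _ _ ha).trans ho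
          clear ho hmin
          induction this with
          | refl => exact haT
          | tail _ h ih => exact hT _ ih _ h)
      exact ⟨K, fun _ => hK⟩
    · exact ⟨fun _ _ _ => 0, fun h => absurd h c⟩
  choose Kc hKc using this
  refine ⟨fun u w s => Kc (comp u) u w s, fun u => ?_⟩
  have hc : ∀ w, rel u w → comp w = comp u := by
    intro w h
    ext z
    simp only [comp, mem_filter, mem_univ, true_and]
    exact ⟨fun k => .head h k, fun k => .head (rs _ _ h) k⟩
  have hv : ∀ w s, valid G Δ u w s → comp w = comp u := fun w s h =>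
    hc w (h.imp (fun h => h.2) (fun h => h.2.2))
  obtain ⟨h1, h2, h3⟩ := hKc (comp u) ⟨u, rfl⟩ u (by simp [comp, Relation.ReflTransGen.refl])
  refine ⟨h1, fun w h => ?_, fun w w' s s' h h' => ?_⟩
  · simp only [hc w (Or.inl h)]
    exact h2 w h
  · simp only [hv w s h, hv w' s' h']
    exact h3 w w' s s' h h'

theorem sInf_eq {X : Type} [Fintype X] (H : SimpleGraph X) (g : X → X → ℕ)
    (h0 : ∀ _ : X, 0 < H.maxDegree)
    (h1 : ∀ p q, H.Adj p q → g p q = g q p) (h2 : ∀ p q, H.Adj p q → g p q < H.maxDegree)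
    (h3 : ∀ p q q', H.Adj p q → H.Adj p q' → g p q = g p q' → q = q') :
    sInf {k : ℕ | ∃ c : Sym2 X → Fin k, ∀ e ∈ H.edgeSet, ∀ f ∈ H.edgeSet,
      e ≠ f → (∃ v, v ∈ e ∧ v ∈ f) → c e ≠ c f} = H.maxDegree := by
  have hmem : H.maxDegree ∈ {k : ℕ | ∃ c : Sym2 X → Fin k, ∀ e ∈ H.edgeSet, ∀ f ∈ H.edgeSet,
      e ≠ f → (∃ v, v ∈ e ∧ v ∈ f) → c e ≠ c f} := by
    let g' : X → X → Fin H.maxDegree := fun p q =>
      if h : H.Adj p q then ⟨g p q, h2 p q h⟩ else ⟨0, h0 p⟩
    refine ⟨Sym2.lift ⟨g', fun p q => ?_⟩, ?_⟩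
    · by_cases h : H.Adj p q
      · simp only [g', dif_pos h, dif_pos h.symm, h1 p q h]
      · simp only [g', dif_neg h, dif_neg (fun k : H.Adj q p => h k.symm)]
    · rintro e he f hf hne ⟨v, hve, hvf⟩ hc
      obtain ⟨a, rfl⟩ := Sym2.mem_iff_exists.1 hve
      obtain ⟨b, rfl⟩ := Sym2.mem_iff_exists.1 hvf
      rw [SimpleGraph.mem_edgeSet] at he hf
      simp only [Sym2.lift_mk, g', dif_pos he, dif_pos hf, Fin.mk.injEq] at hc
      exact hne (by rw [h3 v a b he hf hc])
  refine le_antisymm (Nat.sInf_le hmem) (le_csInf ⟨_, hmem⟩ ?_)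
  rintro k ⟨c, hc⟩
  refine H.maxDegree_le_of_forall_degree_le k fun v => ?_
  rw [← SimpleGraph.card_neighborFinset_eq_degree, ← Fintype.card_fin k, ← card_univ]
  refine card_le_card_of_injOn (fun w => c s(v, w)) (fun _ _ => mem_univ _) fun a ha b hb h => ?_
  by_contra hne
  simp only [mem_coe, SimpleGraph.mem_neighborFinset] at ha hb
  exact hc s(v, a) ha s(v, b) hb (by simp [hne, hb.ne]) ⟨v, by simp, by simp⟩ h

theorem wreath :
    ∀ (V W : Type) [Fintype V] [Fintype W] (G : SimpleGraph V) (G' : SimpleGraph W)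
      (H : SimpleGraph (V × W)),
      H = SimpleGraph.fromRel (fun p q : V × W =>
            (p.1 = q.1 ∧ G'.Adj p.2 q.2) ∨
            (G.Adj p.1 q.1 ∧ ∃ φ : G' ≃g G', φ p.2 = q.2)) →
      G.edgeSet.Nonempty →
      sInf {k : ℕ | ∃ c : Sym2 V → Fin k, ∀ e ∈ G.edgeSet, ∀ f ∈ G.edgeSet,
              e ≠ f → (∃ v, v ∈ e ∧ v ∈ f) → c e ≠ c f} = G.maxDegree →
      sInf {k : ℕ | ∃ c : Sym2 (V × W) → Fin k, ∀ e ∈ H.edgeSet, ∀ f ∈ H.edgeSet,
              e ≠ f → (∃ v, v ∈ e ∧ v ∈ f) → c e ≠ c f} = H.maxDegree := by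
  intro V W _ _ G G' H hH hne hG
  have hadj : ∀ p q : V × W, H.Adj p q ↔
      (p.1 = q.1 ∧ G'.Adj p.2 q.2) ∨ (G.Adj p.1 q.1 ∧ orb G' p.2 q.2) := by
    intro p q
    rw [hH, SimpleGraph.fromRel_adj]
    constructor
    · rintro ⟨-, h | h⟩
      · exact h
      · exact h.imp (fun h => ⟨h.1.symm, h.2.symm⟩) (fun h => ⟨h.1.symm, orb.symm h.2⟩)
    · intro h
      refine ⟨?_, Or.inl h⟩
      rintro rfl
      rcases h with h | h
      · exact h.2.ne rfl
      · exact h.1.ne rfl
  obtain ⟨e0, he0⟩ := hne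
  induction e0 using Sym2.ind with
  | h a b =>
  have hΔ : 1 ≤ G.maxDegree :=
    le_trans ((G.degree_pos_iff_exists_adj a).2 ⟨b, he0⟩) (G.degree_le_maxDegree a)
  have : Nonempty V := ⟨a⟩
  obtain ⟨x, hx⟩ := G.exists_maximal_degree_vertex
  have hD : ∀ u, (univ.filter fun w => G'.Adj u w).card +
      G.maxDegree * (univ.filter fun w => orb G' u w).card ≤ H.maxDegree := by
    intro u
    refine le_trans ?_ (H.degree_le_maxDegree (x, u))
    rw [hx, ← SimpleGraph.card_neighborFinset_eq_degree, ← SimpleGraph.card_neighborFinset_eq_degree,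
      ← card_product, ← one_mul (univ.filter fun w => G'.Adj u w).card, ← card_singleton x,
      ← card_product, ← card_union_of_disjoint]
    · refine card_le_card fun p hp => ?_
      rw [SimpleGraph.mem_neighborFinset, hadj]
      simpa only [mem_union, mem_product, mem_singleton, mem_filter, mem_univ, true_and,
        SimpleGraph.mem_neighborFinset, eq_comm] using hp
    · rw [disjoint_left]
      rintro ⟨y, w⟩ h1 h2
      simp only [mem_product, mem_singleton, SimpleGraph.mem_neighborFinset] at h1 h2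
      exact h2.1.ne h1.1.symm
  obtain ⟨K, hK⟩ := glue G' G.maxDegree H.maxDegree hΔ hD
  obtain ⟨ψ, hψ⟩ := hG ▸ Nat.sInf_mem (Nat.nonempty_of_pos_sInf (lt_of_lt_of_eq hΔ hG.symm))
  let ι : V → ℕ := fun v => Fintype.equivFin V v
  have hι : ∀ v w, ι v = ι w → v = w := fun v w h =>
    (Fintype.equivFin V).injective (Fin.ext h)
  let σ : V → V → ℕ := fun v w => if v = w then 0 else ψ s(v, w) + 1
  have σs : ∀ v w, σ v w = σ w v := fun v w => by simp only [σ, eq_comm, Sym2.eq_swap]
  have hval : ∀ p q, H.Adj p q → valid G' G.maxDegree p.2 q.2 (σ p.1 q.1) := by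
    intro p q h
    rcases (hadj p q).1 h with h | h
    · exact Or.inl ⟨if_pos h.1, h.2⟩
    · simp only [σ, if_neg h.1.ne]
      exact Or.inr ⟨by omega, (ψ _).2, h.2⟩
  have hσ : ∀ p q q', H.Adj p q → H.Adj p q' → σ p.1 q.1 = σ p.1 q'.1 → q.1 = q'.1 := by
    intro p q q' h h' he
    rcases (hadj p q).1 h with h | h <;> rcases (hadj p q').1 h' with h' | h'
    · exact h.1.symm.trans h'.1
    · simp [σ, h.1.symm, h'.1.ne] at he
    · simp [σ, h'.1.symm, h.1.ne] at he
    · simp only [σ, if_neg h.1.ne, if_neg h'.1.ne, add_left_inj] at he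
      by_contra c
      exact hψ s(p.1, q.1) h.1 s(p.1, q'.1) h'.1 (by simp [c, h'.1.ne]) ⟨p.1, by simp, by simp⟩ (Fin.ext he)
  refine sInf_eq H (fun p q => if ι p.1 ≤ ι q.1 then K p.2 q.2 (σ p.1 q.1)
    else K q.2 p.2 (σ p.1 q.1)) (fun p => ?_) (fun p q h => ?_) (fun p q h => ?_)
    (fun p q q' h h' he => ?_)
  · have := hD p.2
    have b : 0 < (univ.filter fun w => orb G' p.2 w).card :=
      card_pos.2 ⟨p.2, by simpa using orb_refl G' p.2⟩
    have := Nat.mul_pos hΔ b
    omega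
  · rw [σs q.1 p.1]
    rcases lt_trichotomy (ι p.1) (ι q.1) with c | c | c
    · rw [if_pos c.le, if_neg c.not_ge]
    · rw [if_pos c.le, if_pos c.ge]
      have e := hι _ _ c
      rcases (hadj p q).1 h with h | h
      · simp only [σ, if_pos e]
        exact (hK p.2).2.1 q.2 h.2
      · exact absurd e h.1.ne
    · rw [if_neg c.not_ge, if_pos c.le]
  · split_ifs
    · exact (hK _).1 _ _ (hval p q h)
    · exact (hK _).1 _ _ (valid_symm G' (hval p q h))
  · have k := (hK p.2).2.2 _ _ _ _ (hval p q h) (hval p q' h')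
    have k' := (hK p.2).2.2 _ _ _ _ (hval p q' h') (hval p q h)
    by_cases c : ι p.1 ≤ ι q.1 <;> by_cases c' : ι p.1 ≤ ι q'.1 <;>
      simp only [c, c', if_true, if_false] at he
    · exact Prod.ext (hσ p q q' h h' (k.1 he).2) (k.1 he).1
    · exact absurd (hσ p q q' h h' (k.2.2 he) ▸ c) c'
    · exact absurd (hσ p q' q h' h (k'.2.2 he.symm) ▸ c') c
    · exact Prod.ext (hσ p q q' h h' (k.2.1 he).2) (k.2.1 he).1

end Pool.Agent.H721Z.WR
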